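import Pool.Agent.U762.AQ.Jug

set_option autoImplicit false

/-!
# For almost all perturbations of the juggler map by zeros and ones all the sequences enter a cycle

Let `J` be the juggler map. To the value `J(n)` a random number `ω(n)` is added, which is `0` or `1` with probability
`1 / 2` each. The `ω(n)` are independent and chosen once and for all, so that `n ↦ J(n) + ω(n)` is a fixed map. We show
that almost surely all its sequences are finite sets, so that they enter cycles, and that the sequence of `n` has at
most `200 log (n + 2) + C` different terms, for all `n`.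

Proof. Let `c(n)` be `1 / 2` for even and `3 / 2` for odd `n`. The potential `1 + (c(n) log n) ^ (1 / 2)` decreases in
the mean by the factor `49 / 50` at each step from a large `n` of the chain in which the perturbations are chosen anew
at each step, as `(1 / 2) ((1 / 2) ^ (1 / 2) + (3 / 2) ^ (1 / 2)) < 0.966`. The orbits of the fixed random map agree
with those of the chain up to their first repetition; they have few terms below any given bound before it.
-/

namespace Pool.Agent.Results.MP_215640_nt.RandomlyPerturbedMap

open MeasureTheory Filter Finset
open scoped ENNReal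

/-- The juggler map. -/
noncomputable def J (n : ℕ) : ℕ := if n % 2 = 0 then ⌊(n : ℝ) ^ (1 / 2 : ℝ)⌋₊ else ⌊(n : ℝ) ^ (3 / 2 : ℝ)⌋₊

/-- The juggler map perturbed by `ω`. -/
noncomputable def pert (ω : ℕ → ℕ) (n : ℕ) : ℕ := J n + ω n

/-- The set of the terms `n, T(n), T(T(n)), ...` of the sequence of `n`, for `T = pert ω`. -/
def terms (ω : ℕ → ℕ) (n : ℕ) : Set ℕ := Set.range fun i : ℕ => (pert ω)^[i] n

/-- The uniform law on `0, 1, ..., k - 1`. -/
noncomputable def uniform (k : ℕ) : Measure ℕ := (k : ℝ≥0∞)⁻¹ • ∑ u ∈ range k, Measure.dirac u

/-- The law of independent perturbations `ω n`, each `0` or `1` with probability `1 / 2`. -/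
noncomputable def environment : Measure (ℕ → ℕ) := Measure.infinitePi fun _ : ℕ => uniform 2

/-- **Theorem.** Almost surely for some `C` all the sequences of the perturbed juggler map are finite sets, of at most
`200 log (n + 2) + C` elements. -/
theorem result : IsProbabilityMeasure environment ∧ ∀ᵐ ω ∂environment, ∃ C : ℕ, ∀ n : ℕ,
    (terms ω n).Finite ∧ ((terms ω n).ncard : ℝ) ≤ 200 * Real.log (n + 2) + C := by
  refine ⟨?_, Pool.Agent.U762.AQ.jug⟩
  have : ∀ _ : ℕ, IsProbabilityMeasure (uniform 2) := fun _ => Pool.Agent.U762.AQ.unif_prob (by norm_num)
  unfold environment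
  infer_instance

end Pool.Agent.Results.MP_215640_nt.RandomlyPerturbedMap
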